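import Pool.Agent.H465.OC.StmB

/-!
# Project OC, task B14 (helper791): evaluation of the modular equation at a `p`-adic point
-/

set_option autoImplicit false

namespace Pool.Agent.H791.OCEvalPoly

open Polynomial Pool.Agent.Q279.SC Pool.Agent.H465.OC

noncomputable section

/-- the ring homomorphism of Laurent series induced by a ring homomorphism -/
def mp {R S : Type} [CommRing R] [CommRing S] (φ : R →+* S) :
    LaurentSeries R →+* LaurentSeries S where
  toFun s := HahnSeries.map s φ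
  map_one' := by
    ext n
    rw [HahnSeries.map_coeff, HahnSeries.coeff_one, HahnSeries.coeff_one]
    split_ifs <;> simp
  map_mul' := fun s t => HahnSeries.map_mul (φ : R →ₙ+* S)
  map_zero' := by
    ext n
    rw [HahnSeries.map_coeff, HahnSeries.coeff_zero, HahnSeries.coeff_zero, map_zero]
  map_add' := fun s t => by
    ext n
    rw [HahnSeries.map_coeff, HahnSeries.coeff_add, HahnSeries.coeff_add, HahnSeries.map_coeff,
      HahnSeries.map_coeff, map_add]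

section mp

variable {S : Type} [CommRing S] {R : Type} [CommRing R]

theorem mp_coeff (φ : R →+* S) (s : LaurentSeries R) (n : ℤ) :
    (mp φ s).coeff n = φ (s.coeff n) := rfl

theorem mp_ls (φ : R →+* S) (f : PowerSeries R) : mp φ (ls f) = ls (PowerSeries.map φ f) := by
  ext n
  rw [mp_coeff]
  unfold ls
  rw [PowerSeries.coeff_coe, PowerSeries.coeff_coe]
  split_ifs
  · rw [map_zero]
  · rw [PowerSeries.coeff_map]

theorem map_ser (φ : R →+* S) (f : PowerSeries ℤ) :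
    PowerSeries.map φ (PowerSeries.map (Int.castRingHom R) f) =
      PowerSeries.map (Int.castRingHom S) f := by
  ext n
  simp only [PowerSeries.coeff_map]
  exact DFunLike.congr_fun (RingHom.ext_int (φ.comp (Int.castRingHom R)) (Int.castRingHom S)) _

theorem mp_VV (hB : LSBasic) (p : ℕ) [Fact p.Prime] (φ : R →+* S) (s : LaurentSeries R) :
    mp φ (VV p R s) = VV p S (mp φ s) := by
  obtain ⟨a1, a2, -⟩ := hB p R
  obtain ⟨b1, b2, -⟩ := hB p S
  ext n
  rw [mp_coeff]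
  by_cases h : (p : ℤ) ∣ n
  · obtain ⟨m, rfl⟩ := h
    rw [a1, b1, mp_coeff]
  · rw [a2 _ _ h, b2 _ _ h, map_zero]

theorem mp_Di (hB : LSBasic) (φ : R →+* S) : mp φ (Di R) = Di S := by
  have : Fact (Nat.Prime 2) := ⟨Nat.prime_two⟩
  obtain ⟨-, -, -, a, -⟩ := hB 2 R
  obtain ⟨-, -, -, b, -⟩ := hB 2 S
  have h1 : ls (qD S) * mp φ (Di R) = 1 := by
    have h2 := congrArg (mp φ) a
    rw [map_mul, map_one, mp_ls] at h2
    unfold qD at h2 ⊢
    rw [map_ser] at h2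
    exact h2
  calc mp φ (Di R) = (ls (qD S) * Di S) * mp φ (Di R) := by rw [b, one_mul]
    _ = Di S * (ls (qD S) * mp φ (Di R)) := by ring
    _ = Di S := by rw [h1, mul_one]

theorem mp_q4 (φ : R →+* S) : mp φ (ls (q4 R)) = ls (q4 S) := by
  rw [mp_ls]
  unfold q4
  rw [map_ser]

theorem mp_q6 (φ : R →+* S) : mp φ (ls (q6 R)) = ls (q6 S) := by
  rw [mp_ls]
  unfold q6
  rw [map_ser]

theorem mp_qD (φ : R →+* S) : mp φ (ls (qD R)) = ls (qD S) := by
  rw [mp_ls]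
  unfold qD
  rw [map_ser]

theorem mp_jj (hB : LSBasic) (φ : R →+* S) : mp φ (jj R) = jj S := by
  unfold jj
  rw [map_mul, map_pow, mp_q4, mp_Di hB]

theorem mp_TT (hB : LSBasic) (p : ℕ) [Fact p.Prime] (φ : R →+* S) (A B C : ℤ) :
    mp φ (TT p R A B C) = TT p S A B C := by
  unfold TT
  simp only [map_add, map_mul, map_pow, map_intCast, mp_VV hB, mp_q4, mp_q6, mp_qD, mp_Di hB]

theorem mp_aeval (hB : LSBasic) [Algebra S (LaurentSeries S)] (G : ℤ[X]) :
    mp (Int.castRingHom S) (aeval (jj ℤ) G) = aeval (jj S) (G.map (Int.castRingHom S)) := by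
  rw [← mp_jj hB (Int.castRingHom S)]
  exact Polynomial.map_aeval_eq_aeval_map (RingHom.ext_int _ _) G (jj ℤ)

end mp

/-- common denominators -/
theorem denom (s : Finset ℕ) (g : ℕ → ℚ[X]) : ∃ (d : ℤ) (G : ℕ → ℤ[X]), d ≠ 0 ∧
    ∀ k ∈ s, (G k).map (Int.castRingHom ℚ) = C (d : ℚ) * g k := by
  classical
  induction s using Finset.induction_on with
  | empty => exact ⟨1, fun _ => 0, one_ne_zero, fun k hk => absurd hk (Finset.notMem_empty k)⟩
  | insert a s ha ih =>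
    obtain ⟨d, G, hd, hG⟩ := ih
    obtain ⟨b, hbm, hb⟩ := IsLocalization.integerNormalization_spec (nonZeroDivisors ℤ) (g a)
    have hb0 : b ≠ 0 := nonZeroDivisors.ne_zero hbm
    refine ⟨b * d, fun k => if k = a then C d * IsLocalization.integerNormalization
      (nonZeroDivisors ℤ) (g a) else C b * G k, mul_ne_zero hb0 hd, ?_⟩
    intro k hk
    by_cases hka : k = a
    · subst hka
      beta_reduce
      rw [if_pos rfl, Polynomial.map_mul, Polynomial.map_C]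
      have h1 : (IsLocalization.integerNormalization (nonZeroDivisors ℤ) (g k)).map
          (Int.castRingHom ℚ) = C (b : ℚ) * g k := by
        have h2 : (algebraMap ℤ ℚ) = Int.castRingHom ℚ := RingHom.ext_int _ _
        rw [← h2, hb, zsmul_eq_mul]
        simp
      rw [h1]
      push_cast
      simp only [eq_intCast, C_mul]
      ring
    · beta_reduce
      rw [if_neg hka, Polynomial.map_mul, Polynomial.map_C,
        hG k ((Finset.mem_insert.1 hk).resolve_left hka)]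
      push_cast
      simp only [eq_intCast, C_mul]
      ring

section rel

variable {p : ℕ} [Fact p.Prime] {B : Type} [CommRing B] [Algebra ℤ_[p] B] {j : B} {c : ℤ_[p]}

theorem rel_pow (hR : RelRing) {F : ℤ_[p] → ℤ_[p]} {s : B} (h : Rel j c F s) (n : ℕ) :
    Rel j c (fun x => F x ^ n) (s ^ n) := by
  induction n with
  | zero =>
    have h1 := (hR p B j c).2.1 1
    rw [map_one] at h1
    simpa using h1
  | succ n ih =>
    simp only [pow_succ]
    exact ((hR p B j c).2.2 _ _ _ _ ih h).2.1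

theorem rel_sum (hR : RelRing) (t : Finset ℕ) {F : ℕ → ℤ_[p] → ℤ_[p]} {s : ℕ → B}
    (h : ∀ k ∈ t, Rel j c (F k) (s k)) :
    Rel j c (fun x => ∑ k ∈ t, F k x) (∑ k ∈ t, s k) := by
  classical
  induction t using Finset.induction_on with
  | empty =>
    have h1 := (hR p B j c).2.1 0
    rw [map_zero] at h1
    simpa using h1
  | insert a t ha ih =>
    simp only [Finset.sum_insert ha]
    exact ((hR p B j c).2.2 _ _ _ _ (h a (Finset.mem_insert_self a t))
      (ih fun k hk => h k (Finset.mem_insert_of_mem hk))).1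

theorem rel_poly (P : ℤ_[p][X]) : Rel j c (fun x => P.eval x) (aeval j P) := by
  intro M
  refine ⟨P, 1, ?_, ?_, ?_⟩
  · rw [eval_one]
    exact isUnit_one
  · rw [map_one, one_mul, sub_self]
    exact dvd_zero _
  · intro x _
    rw [eval_one, one_mul, sub_self]
    exact dvd_zero _

theorem rel_int (hR : RelRing) (n : ℤ) : Rel j c (fun _ => (n : ℤ_[p])) (n : B) := by
  have h1 := (hR p B j c).2.1 (n : ℤ_[p])
  rwa [map_intCast] at h1

end rel

theorem main : RelRing → RelDiv → LSBasic → LSInj → EvalPoly := by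
  intro hR hD hB hI p hp c R4 R6 δ h4 h6 hδ A B C' g hg x hx
  obtain ⟨hInj, hNZ, -⟩ := hI p
  obtain ⟨-, -, -, b1, b2, b3, b4, -⟩ := hB p ℤ_[p]
  -- the element
  have hTT : TT p ℤ_[p] A B C' = (A : LaurentSeries ℤ_[p]) * sD p +
      (B : LaurentSeries ℤ_[p]) * (s4 p * jj ℤ_[p]) +
      (C' : LaurentSeries ℤ_[p]) * (s6 p * (jj ℤ_[p] - (1728 : ℤ))) := by
    have e4 : s4 p * jj ℤ_[p] = VV p ℤ_[p] (ls (q4 ℤ_[p])) * ls (q4 ℤ_[p]) ^ 2 * Di ℤ_[p] := by
      unfold s4 jj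
      calc VV p ℤ_[p] (ls (q4 ℤ_[p])) * ls (PowerSeries.invOfUnit (q4 ℤ_[p]) 1) *
            (ls (q4 ℤ_[p]) ^ 3 * Di ℤ_[p])
          = VV p ℤ_[p] (ls (q4 ℤ_[p])) * (ls (q4 ℤ_[p]) *
            ls (PowerSeries.invOfUnit (q4 ℤ_[p]) 1)) * ls (q4 ℤ_[p]) ^ 2 * Di ℤ_[p] := by ring
        _ = _ := by rw [b2, mul_one]
    have e6 : s6 p * (jj ℤ_[p] - (1728 : ℤ)) =
        VV p ℤ_[p] (ls (q6 ℤ_[p])) * ls (q6 ℤ_[p]) * Di ℤ_[p] := by
      push_cast
      rw [← b4]
      unfold s6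
      calc VV p ℤ_[p] (ls (q6 ℤ_[p])) * ls (PowerSeries.invOfUnit (q6 ℤ_[p]) 1) *
            (ls (q6 ℤ_[p]) ^ 2 * Di ℤ_[p])
          = VV p ℤ_[p] (ls (q6 ℤ_[p])) * (ls (q6 ℤ_[p]) *
            ls (PowerSeries.invOfUnit (q6 ℤ_[p]) 1)) * ls (q6 ℤ_[p]) * Di ℤ_[p] := by ring
        _ = _ := by rw [b3, mul_one]
    rw [e4, e6]
    rfl
  obtain ⟨θ, hθ⟩ : ∃ θ : ℤ_[p] → ℤ_[p], θ = fun y => (A : ℤ_[p]) * δ y +
    (B : ℤ_[p]) * (R4 y * y) + (C' : ℤ_[p]) * (R6 y * (y - 1728)) := ⟨_, rfl⟩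
  have hrel : Rel (jj ℤ_[p]) c θ (TT p ℤ_[p] A B C') := by
    rw [hTT, hθ]
    obtain ⟨r1, -, r3⟩ := hR p (LaurentSeries ℤ_[p]) (jj ℤ_[p]) c
    have k1 := (r3 _ _ _ _ (rel_int hR A) hδ).2.1
    have k2 := (r3 _ _ _ _ (rel_int hR B) (r3 _ _ _ _ h4 r1).2.1).2.1
    have k3 := (r3 _ _ _ _ (rel_int hR C') (r3 _ _ _ _ h6
      (r3 _ _ _ _ r1 (rel_int hR 1728)).2.2).2.1).2.1
    have k4 := (r3 _ _ _ _ (r3 _ _ _ _ k1 k2).1 k3).1
    have e : (fun y : ℤ_[p] => (A : ℤ_[p]) * δ y + (B : ℤ_[p]) * (R4 y * y) +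
        (C' : ℤ_[p]) * (R6 y * (y - 1728))) = fun y : ℤ_[p] => (A : ℤ_[p]) * δ y +
        (B : ℤ_[p]) * (R4 y * y) + (C' : ℤ_[p]) * (R6 y * (y - ((1728 : ℤ) : ℤ_[p]))) := by
      funext y
      push_cast
      rfl
    rw [e]
    exact k4
  -- integral coefficients
  obtain ⟨d, G, hd, hG⟩ := denom (Finset.range (p + 2)) g
  have hQ : mp (Int.castRingHom ℚ) (∑ k ∈ Finset.range (p + 2), (-1 : LaurentSeries ℤ) ^ k *
      aeval (jj ℤ) (G k) * TT p ℤ A B C' ^ (p + 1 - k)) = 0 := by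
    rw [map_sum]
    have h1 : ∀ k ∈ Finset.range (p + 2), mp (Int.castRingHom ℚ) ((-1 : LaurentSeries ℤ) ^ k *
        aeval (jj ℤ) (G k) * TT p ℤ A B C' ^ (p + 1 - k)) = (d : LaurentSeries ℚ) *
        ((-1 : LaurentSeries ℚ) ^ k * aeval (jj ℚ) (g k) * TT p ℚ A B C' ^ (p + 1 - k)) := by
      intro k hk
      rw [map_mul, map_mul, map_pow, map_pow, map_neg, map_one, mp_TT hB, mp_aeval hB, hG k hk,
        map_mul, aeval_C, map_intCast]
      ring
    rw [Finset.sum_congr rfl h1, ← Finset.mul_sum, hg, mul_zero]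
  have hZ : ∑ k ∈ Finset.range (p + 2), (-1 : LaurentSeries ℤ) ^ k *
      aeval (jj ℤ) (G k) * TT p ℤ A B C' ^ (p + 1 - k) = 0 := by
    ext n
    have h1 := congrArg (fun s : LaurentSeries ℚ => s.coeff n) hQ
    simp only [mp_coeff, HahnSeries.coeff_zero] at h1
    rw [HahnSeries.coeff_zero]
    have h2 : ((∑ k ∈ Finset.range (p + 2), (-1 : LaurentSeries ℤ) ^ k *
      aeval (jj ℤ) (G k) * TT p ℤ A B C' ^ (p + 1 - k)).coeff n : ℚ) = 0 := h1
    exact_mod_cast h2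
  have hP : ∑ k ∈ Finset.range (p + 2), (-1 : LaurentSeries ℤ_[p]) ^ k *
      aeval (jj ℤ_[p]) ((G k).map (Int.castRingHom ℤ_[p])) * TT p ℤ_[p] A B C' ^ (p + 1 - k) =
      0 := by
    have h1 := congrArg (mp (Int.castRingHom ℤ_[p])) hZ
    rw [map_zero, map_sum] at h1
    rw [← h1]
    refine Finset.sum_congr rfl fun k _ => ?_
    rw [map_mul, map_mul, map_pow, map_pow, map_neg, map_one, mp_TT hB, mp_aeval hB]
  have hF : Rel (jj ℤ_[p]) c (fun y => ∑ k ∈ Finset.range (p + 2), (((-1 : ℤ) ^ k : ℤ) : ℤ_[p]) *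
      ((G k).map (Int.castRingHom ℤ_[p])).eval y * θ y ^ (p + 1 - k)) 0 := by
    rw [← hP]
    refine rel_sum hR _ fun k _ => ?_
    obtain ⟨-, -, r3⟩ := hR p (LaurentSeries ℤ_[p]) (jj ℤ_[p]) c
    have e : (-1 : LaurentSeries ℤ_[p]) ^ k = (((-1 : ℤ) ^ k : ℤ) : LaurentSeries ℤ_[p]) := by
      push_cast
      rfl
    rw [e]
    exact (r3 _ _ _ _ (r3 _ _ _ _ (rel_int hR ((-1) ^ k)) (rel_poly _)).2.1
      (rel_pow hR hrel _)).2.1
  have hx0 := (hD p (LaurentSeries ℤ_[p]) (jj ℤ_[p]) c hInj hNZ).2 _ hF x hx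
  -- divide by `d`
  have hd0 : (d : ℚ_[p]) ≠ 0 := by exact_mod_cast hd
  refine (mul_eq_zero.1 (?_ : (d : ℚ_[p]) * _ = 0)).resolve_left hd0
  have hx1 := congrArg (fun z : ℤ_[p] => (z : ℚ_[p])) hx0
  simp only [PadicInt.coe_zero, PadicInt.coe_sum] at hx1
  rw [Finset.mul_sum]
  refine Eq.trans (Finset.sum_congr rfl fun k hk => ?_) hx1
  have h1 : (d : ℚ_[p]) * aeval (x : ℚ_[p]) (g k) =
      ((((G k).map (Int.castRingHom ℤ_[p])).eval x : ℤ_[p]) : ℚ_[p]) := by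
    have h2 : aeval (x : ℚ_[p]) (C (d : ℚ) * g k) = (d : ℚ_[p]) * aeval (x : ℚ_[p]) (g k) := by
      rw [map_mul, aeval_C, map_intCast]
    rw [← h2, ← hG k hk]
    rw [aeval_def, eval₂_map, eval_map]
    have h3 := hom_eval₂ (G k) (Int.castRingHom ℤ_[p]) (PadicInt.Coe.ringHom) x
    have h4 : (PadicInt.Coe.ringHom.comp (Int.castRingHom ℤ_[p])) =
        (algebraMap ℚ ℚ_[p]).comp (Int.castRingHom ℚ) := RingHom.ext_int _ _
    rw [h4] at h3
    exact h3.symm
  rw [PadicInt.coe_mul, PadicInt.coe_mul, ← h1, PadicInt.coe_pow, hθ]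
  push_cast
  ring

end

end Pool.Agent.H791.OCEvalPoly
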