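import Pool.Agent.H666.LRC.Defs3

/-!
# U4 of project LRC (helper666): the covariances of two close sequences (helper791)
-/

set_option autoImplicit false

open Filter Topology MeasureTheory

namespace Pool.Agent.H791.LRC

open Pool.Agent.H666.LRC (cv)

theorem sum_shift_le (f : ℕ → ℝ) (hf : ∀ n, 0 ≤ f n) (N k : ℕ) :
    ∑ n ∈ Finset.Icc 1 N, f (n + k) ≤ ∑ n ∈ Finset.Icc 1 (N + k), f n := by
  have h1 : ∑ n ∈ Finset.Icc 1 N, f (n + k) =
      ∑ m ∈ (Finset.Icc 1 N).map (addRightEmbedding k), f m := by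
    rw [Finset.sum_map]
    rfl
  rw [h1]
  refine Finset.sum_le_sum_of_subset_of_nonneg ?_ fun n _ _ => hf n
  intro m hm
  rw [Finset.mem_map] at hm
  obtain ⟨n, hn, rfl⟩ := hm
  rw [Finset.mem_Icc] at hn ⊢
  show 1 ≤ n + k ∧ n + k ≤ N + k
  omega

theorem sum_split (f g : ℕ → ℝ) (n0 : ℕ) (hf : ∀ n, 0 ≤ f n)
    (h : ∀ n, n0 ≤ n → f n ≤ g n) (hg : ∀ n, 0 ≤ g n) (N : ℕ) :
    ∑ n ∈ Finset.Icc 1 N, f n ≤ ∑ n ∈ Finset.Icc 1 N, g n + ∑ n ∈ Finset.range n0, f n := by
  classical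
  have h1 : ∀ n ∈ Finset.Icc 1 N, f n ≤ g n + if n ∈ Finset.range n0 then f n else 0 := by
    intro n _
    by_cases hn : n < n0
    · rw [if_pos (Finset.mem_range.2 hn)]
      linarith [hg n]
    · rw [if_neg (by rwa [Finset.mem_range]), add_zero]
      exact h n (not_lt.1 hn)
  refine (Finset.sum_le_sum h1).trans ?_
  rw [Finset.sum_add_distrib]
  refine add_le_add le_rfl ?_
  rw [← Finset.sum_filter]
  refine Finset.sum_le_sum_of_subset_of_nonneg ?_ fun n _ _ => hf n
  intro n hn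
  exact (Finset.mem_filter.1 hn).2

theorem U4 : Pool.Agent.H666.LRC.S_transfer := by
  intro a b K0 hK0 ha hsum hclose
  obtain ⟨n0, hn0⟩ := hclose 1 one_pos
  have hb : ∀ n, n0 ≤ n → b n ^ 2 ≤ 2 + 8 * a n ^ 2 := by
    intro n hn
    have h1 := hn0 n hn
    have h2 : |b n| ≤ 1 + 2 * |a n| := by
      have h3 := abs_sub_abs_le_abs_sub (b n) (a n)
      rw [abs_sub_comm] at h3
      linarith
    have h4 : |b n| ^ 2 ≤ (1 + 2 * |a n|) ^ 2 := pow_le_pow_left₀ (abs_nonneg _) h2 2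
    rw [sq_abs] at h4
    have h5 : |a n| ^ 2 = a n ^ 2 := sq_abs _
    nlinarith [sq_nonneg (2 * |a n| - 1)]
  -- the sum of the squares
  have hsumb : ∀ᶠ N : ℕ in atTop, ∑ n ∈ Finset.Icc 1 N, b n ^ 2 ≤ (8 * K0 + 8) * N := by
    obtain ⟨B, hB⟩ := exists_nat_ge (∑ n ∈ Finset.range n0, b n ^ 2)
    filter_upwards [hsum, eventually_ge_atTop B] with N h1 h2
    have h3 := sum_split (fun n => b n ^ 2) (fun n => 2 + 8 * a n ^ 2) n0
      (fun n => sq_nonneg _) hb (fun n => by positivity) N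
    rw [Finset.sum_add_distrib, Finset.sum_const, Nat.card_Icc, nsmul_eq_mul, ← Finset.mul_sum]
      at h3
    have h4 : (B : ℝ) ≤ N := by exact_mod_cast h2
    have h5 : ((N + 1 - 1 : ℕ) : ℝ) = N := by
      rw [Nat.add_sub_cancel]
    rw [h5] at h3
    have h6 : (0 : ℝ) ≤ N := Nat.cast_nonneg _
    nlinarith
  refine ⟨?_, hsumb, ?_⟩
  · have h1 : Tendsto (fun n : ℕ => 2 * (1 / (n : ℝ)) + 8 * (a n ^ 2 / n)) atTop (𝓝 0) := by
      have h2 := (tendsto_one_div_atTop_nhds_zero_nat (𝕜 := ℝ)).const_mul 2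
      have h3 := ha.const_mul 8
      have h4 := h2.add h3
      simpa using h4
    refine squeeze_zero' (Eventually.of_forall fun n => by positivity) ?_ h1
    filter_upwards [eventually_ge_atTop n0] with n hn
    have h2 : b n ^ 2 / n ≤ (2 + 8 * a n ^ 2) / n :=
      div_le_div_of_nonneg_right (hb n hn) (Nat.cast_nonneg _)
    refine h2.trans (le_of_eq ?_)
    ring
  · intro k
    rw [Metric.tendsto_atTop']
    intro ε hε
    obtain ⟨e, he, heε⟩ : ∃ e : ℝ, 0 < e ∧ e * (20 * K0 + 20) = ε := by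
      refine ⟨ε / (20 * K0 + 20), by positivity, ?_⟩
      field_simp
    obtain ⟨n1, hn1⟩ := hclose e he
    have hpt : ∀ n, n1 ≤ n → |a n * a (n + k) - b n * b (n + k)| ≤
        e * (2 + 2 * a n ^ 2 + a (n + k) ^ 2 + b (n + k) ^ 2) := by
      intro n hn
      have h1 := hn1 n hn
      have h2 := hn1 (n + k) (by omega)
      have e1 : a n * a (n + k) - b n * b (n + k) =
          a n * (a (n + k) - b (n + k)) + (a n - b n) * b (n + k) := by ring
      rw [e1]
      refine (abs_add_le _ _).trans ?_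
      rw [abs_mul, abs_mul]
      have h3 : |a n| * |a (n + k) - b (n + k)| ≤ |a n| * (e * (1 + |a (n + k)|)) :=
        mul_le_mul_of_nonneg_left h2 (abs_nonneg _)
      have h4 : |a n - b n| * |b (n + k)| ≤ (e * (1 + |a n|)) * |b (n + k)| :=
        mul_le_mul_of_nonneg_right h1 (abs_nonneg _)
      have s1 : |a n| ^ 2 = a n ^ 2 := sq_abs _
      have s2 : |a (n + k)| ^ 2 = a (n + k) ^ 2 := sq_abs _
      have s3 : |b (n + k)| ^ 2 = b (n + k) ^ 2 := sq_abs _
      have h5 : |a n| * (1 + |a (n + k)|) + (1 + |a n|) * |b (n + k)| ≤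
          2 + 2 * a n ^ 2 + a (n + k) ^ 2 + b (n + k) ^ 2 := by
        rw [← s1, ← s2, ← s3]
        nlinarith [sq_nonneg (|a n| - 1), sq_nonneg (|a n| - |a (n + k)|),
          sq_nonneg (|b (n + k)| - 1), sq_nonneg (|a n| - |b (n + k)|), sq_nonneg (|a n|),
          sq_nonneg (|a (n + k)|), sq_nonneg (|b (n + k)|)]
      have h6 := mul_le_mul_of_nonneg_left h5 he.le
      calc |a n| * |a (n + k) - b (n + k)| + |a n - b n| * |b (n + k)|
          ≤ |a n| * (e * (1 + |a (n + k)|)) + (e * (1 + |a n|)) * |b (n + k)| :=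
            add_le_add h3 h4
        _ = e * (|a n| * (1 + |a (n + k)|) + (1 + |a n|) * |b (n + k)|) := by ring
        _ ≤ _ := h6
    obtain ⟨B, hB⟩ := exists_nat_ge
      ((∑ n ∈ Finset.range n1, |a n * a (n + k) - b n * b (n + k)|) / e)
    rw [div_le_iff₀ he] at hB
    have hsumk := (tendsto_add_atTop_nat k).eventually hsum
    have hsumbk := (tendsto_add_atTop_nat k).eventually hsumb
    obtain ⟨N0, hN0⟩ := eventually_atTop.1 (((hsum.and hsumk).and hsumbk).and
      (((eventually_ge_atTop B).and (eventually_ge_atTop k)).and (eventually_ge_atTop 1)))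
    refine ⟨N0, fun N hN => ?_⟩
    obtain ⟨⟨⟨h1, h2⟩, h3⟩, ⟨h4, h5⟩, h6⟩ := hN0 N (le_of_lt hN)
    have hNpos : (0 : ℝ) < N := by exact_mod_cast h6
    have hkN : (k : ℝ) ≤ N := by exact_mod_cast h5
    have hBN : (B : ℝ) ≤ N := by exact_mod_cast h4
    have g1 := sum_split (fun n => |a n * a (n + k) - b n * b (n + k)|)
      (fun n => e * (2 + 2 * a n ^ 2 + a (n + k) ^ 2 + b (n + k) ^ 2)) n1
      (fun n => abs_nonneg _) hpt (fun n => by positivity) N
    rw [← Finset.mul_sum, Finset.sum_add_distrib, Finset.sum_add_distrib, Finset.sum_add_distrib,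
      Finset.sum_const, Nat.card_Icc, nsmul_eq_mul, ← Finset.mul_sum, Nat.add_sub_cancel] at g1
    have g2 := sum_shift_le (fun n => a n ^ 2) (fun n => sq_nonneg _) N k
    have g3 := sum_shift_le (fun n => b n ^ 2) (fun n => sq_nonneg _) N k
    have g4 : ∑ n ∈ Finset.Icc 1 N, a (n + k) ^ 2 ≤ K0 * (2 * N) := by
      refine g2.trans (h2.trans ?_)
      refine mul_le_mul_of_nonneg_left ?_ hK0
      push_cast
      linarith
    have g5 : ∑ n ∈ Finset.Icc 1 N, b (n + k) ^ 2 ≤ (8 * K0 + 8) * (2 * N) := by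
      refine g3.trans (h3.trans ?_)
      refine mul_le_mul_of_nonneg_left ?_ (by positivity)
      push_cast
      linarith
    have g6 : (N : ℝ) * 2 + 2 * ∑ n ∈ Finset.Icc 1 N, a n ^ 2 +
        ∑ n ∈ Finset.Icc 1 N, a (n + k) ^ 2 + ∑ n ∈ Finset.Icc 1 N, b (n + k) ^ 2 ≤
        (20 * K0 + 18) * N := by
      nlinarith
    have g7 := mul_le_mul_of_nonneg_left g6 he.le
    have g8 : ∑ n ∈ Finset.Icc 1 N, |a n * a (n + k) - b n * b (n + k)| ≤
        e * (20 * K0 + 19) * N := by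
      have g9 : (B : ℝ) * e ≤ N * e := mul_le_mul_of_nonneg_right hBN he.le
      linarith
    have e2 : cv a N k - cv b N k =
        (1 / N : ℝ) * ∑ n ∈ Finset.Icc 1 N, (a n * a (n + k) - b n * b (n + k)) := by
      unfold cv
      rw [Finset.sum_sub_distrib]
      ring
    rw [dist_zero_right, Real.norm_eq_abs, e2, abs_mul, abs_of_pos (by positivity)]
    have g10 : |∑ n ∈ Finset.Icc 1 N, (a n * a (n + k) - b n * b (n + k))| ≤
        e * (20 * K0 + 19) * N := (Finset.abs_sum_le_sum_abs _ _).trans g8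
    calc (1 / N : ℝ) * |∑ n ∈ Finset.Icc 1 N, (a n * a (n + k) - b n * b (n + k))|
        ≤ (1 / N : ℝ) * (e * (20 * K0 + 19) * N) :=
          mul_le_mul_of_nonneg_left g10 (by positivity)
      _ = e * (20 * K0 + 19) := by
          field_simp
      _ < ε := by
          rw [← heε]
          linarith

end Pool.Agent.H791.LRC
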