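import Pool.Agent.H683.SC.PStm

/-!
# The matrix of the graph of a program can be computed in polynomial time (`S_PMAT`)
-/

set_option autoImplicit false

namespace Pool.Agent.NPC.H791SC

open Turing Pool.Agent.H683.SC Pool.Agent.H683.MC Pool.Agent.H633R2

theorem poly_look : Poly (fun x : List (ℕ × ℕ) × ℕ => look x.1 x.2) := by
  have h1 : Poly (fun x : List (ℕ × ℕ) × ℕ =>
      (x.1.filter fun p => decide (p.1 = x.2)).head?) :=
    Poly.head? (Poly.filter (l := fun x : List (ℕ × ℕ) × ℕ => x.1)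
      (p := fun x p => decide (p.1 = x.2)) (Poly.fst Poly.id)
      (Poly.decide_eq (Poly.fst (Poly.snd Poly.id)) (Poly.snd (Poly.fst Poly.id))))
  refine (Poly.optCases (g := fun _ => 0) (h := fun _ p => p.2) h1 (Poly.const 0)
    (Poly.snd (Poly.snd Poly.id))).congr fun x => ?_
  unfold look
  rw [List.head?_filter]
  cases x.1.find? fun p => decide (p.1 = x.2) <;> rfl

/-- The states of the program. -/
abbrev Sta : Type := ℕ × List (ℕ × ℕ) × List (ℕ × ℕ)

theorem poly_stp : Poly (fun x : Sta × Cm => stp x.1 x.2) := by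
  have s1 : Poly (fun x : Sta × Cm => x.1.1) := Poly.fst (Poly.fst Poly.id)
  have s2 : Poly (fun x : Sta × Cm => x.1.2.1) := Poly.fst (Poly.snd (Poly.fst Poly.id))
  have s3 : Poly (fun x : Sta × Cm => x.1.2.2) := Poly.snd (Poly.snd (Poly.fst Poly.id))
  have c1 : Poly (fun x : Sta × Cm => x.2.1) := Poly.fst (Poly.snd Poly.id)
  have c2 : Poly (fun x : Sta × Cm => x.2.2) := Poly.snd (Poly.snd Poly.id)
  have hf : Poly (fun p : (Sta × Cm) × ℕ => p.1) := Poly.fst Poly.id
  have l1 : Poly (fun p : (Sta × Cm) × ℕ => look p.1.1.2.1 p.1.2.1) :=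
    Poly.comp (g := fun x : List (ℕ × ℕ) × ℕ => look x.1 x.2)
      (f := fun p : (Sta × Cm) × ℕ => (p.1.1.2.1, p.1.2.1)) poly_look
      (Poly.pair (s2.comp hf) (c1.comp hf))
  have l2 : Poly (fun p : (Sta × Cm) × ℕ => look p.1.1.2.1 p.2) :=
    Poly.comp (g := fun x : List (ℕ × ℕ) × ℕ => look x.1 x.2)
      (f := fun p : (Sta × Cm) × ℕ => (p.1.1.2.1, p.2)) poly_look
      (Poly.pair (s2.comp hf) (Poly.snd Poly.id))
  refine (Poly.optCases (o := fun x : Sta × Cm => x.2.2)
    (g := fun x => ((x.1.1 + 1, (x.2.1, x.1.1) :: x.1.2.1, x.1.2.2) : Sta))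
    (h := fun x b => ((x.1.1 + 1, x.1.2.1, (x.1.1, look x.1.2.1 x.2.1) ::
      (x.1.1, look x.1.2.1 b) :: x.1.2.2) : Sta)) c2 ?_ ?_).congr fun x => ?_
  · exact Poly.pair (Poly.succ s1) (Poly.pair (Poly.cons (Poly.pair c1 s1) s2) s3)
  · exact Poly.pair (Poly.succ (s1.comp hf)) (Poly.pair (s2.comp hf)
      (Poly.cons (Poly.pair (s1.comp hf) l1) (Poly.cons (Poly.pair (s1.comp hf) l2)
        (s3.comp hf))))
  · obtain ⟨s, a, o⟩ := x
    cases o <;> rfl

/-- The invariant of the states. -/
structure Inv (N k : ℕ) (s : Sta) : Prop where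
  num : s.1 = k + 1
  lab : ∀ p ∈ s.2.1, sz p.1 ≤ N ∧ p.2 ≤ k
  llen : s.2.1.length ≤ k
  edg : ∀ e ∈ s.2.2, e.1 ≤ k ∧ e.2 ≤ k
  elen : s.2.2.length ≤ 2 * k

theorem look_le {L : List (ℕ × ℕ)} {k : ℕ} (h : ∀ p ∈ L, p.2 ≤ k) (a : ℕ) : look L a ≤ k := by
  unfold look
  cases hf : L.find? fun p => decide (p.1 = a) with
  | none => exact Nat.zero_le _
  | some p => exact h p (List.mem_of_find?_eq_some hf)

theorem Inv.step {N k : ℕ} {s : Sta} (h : Inv N k s) (c : Cm) (hc : sz c.1 ≤ N) :
    Inv N (k + 1) (stp s c) := by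
  obtain ⟨a, o⟩ := c
  obtain ⟨n, L, E⟩ := s
  obtain ⟨h1, h2, h3, h4, h5⟩ := h
  simp only at h1 h2 h3 h4 h5 hc
  cases o with
  | none =>
    refine ⟨?_, ?_, ?_, ?_, ?_⟩
    · change n + 1 = _
      omega
    · intro p hp
      rcases List.mem_cons.1 hp with rfl | hp
      · exact ⟨hc, by simp only; omega⟩
      · exact ⟨(h2 p hp).1, (h2 p hp).2.trans (Nat.le_succ k)⟩
    · change (_ :: L).length ≤ _
      rw [List.length_cons]
      omega
    · intro e he
      have := h4 e he
      omega
    · change E.length ≤ _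
      omega
  | some b =>
    have hl : ∀ x, look L x ≤ k := look_le fun p hp => (h2 p hp).2
    refine ⟨?_, ?_, ?_, ?_, ?_⟩
    · change n + 1 = _
      omega
    · intro p hp
      exact ⟨(h2 p hp).1, (h2 p hp).2.trans (Nat.le_succ k)⟩
    · change L.length ≤ _
      omega
    · intro e he
      rcases List.mem_cons.1 he with rfl | he
      · have := hl a
        simp only
        omega
      · rcases List.mem_cons.1 he with rfl | he
        · have := hl b
          simp only
          omega
        · have := h4 e he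
          omega
    · change (_ :: _ :: E).length ≤ _
      rw [List.length_cons, List.length_cons]
      omega

theorem Inv.fold {N : ℕ} : ∀ (cs : List Cm) (k : ℕ) (s : Sta), Inv N k s →
    (∀ c ∈ cs, sz c.1 ≤ N) → Inv N (k + cs.length) (cs.foldl stp s)
  | [], k, s, h, _ => h
  | c :: cs, k, s, h, hc => by
    have h1 := Inv.fold cs (k + 1) (stp s c) (h.step c (hc c (by simp)))
      fun d hd => hc d (List.mem_cons_of_mem _ hd)
    rw [List.foldl_cons, List.length_cons]
    have e : k + (cs.length + 1) = k + 1 + cs.length := by omega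
    rw [e]
    exact h1

theorem inv_run {N : ℕ} (cs : List Cm) (hc : ∀ c ∈ cs, sz c.1 ≤ N) :
    Inv N cs.length (run cs) := by
  have h0 : Inv N 0 ((1, [], []) : Sta) :=
    ⟨rfl, fun p hp => by simp at hp, by simp, fun p hp => by simp at hp, by simp⟩
  have h := Inv.fold cs 0 _ h0 hc
  rwa [Nat.zero_add] at h

theorem run_fst (cs : List Cm) : (run cs).1 = cs.length + 1 :=
  (inv_run (N := sz cs) cs fun c hc => by
    have h1 := sz_le_of_mem hc
    obtain ⟨a, o⟩ := c
    rw [sz_pair] at h1
    simp only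
    omega).num

theorem Inv.sz_le {N k : ℕ} {s : Sta} (h : Inv N k s) (hk : k ≤ N) :
    sz s ≤ (4 * (N + 1) + 1) + (N * (5 * N + 3) + 1) + (2 * N * (8 * N + 4) + 1) + 2 := by
  obtain ⟨n, L, E⟩ := s
  obtain ⟨h1, h2, h3, h4, h5⟩ := h
  simp only at h1 h2 h3 h4 h5
  have key : ∀ v : ℕ, v ≤ N + 1 → sz v ≤ 4 * v + 1 := fun v _ =>
    (sz_nat_le v).trans (by have := Poly.size_le_self v; omega)
  rw [sz_pair, sz_pair]
  have e1 : sz n ≤ 4 * (N + 1) + 1 := (key n (by omega)).trans (by omega)
  have e2 : sz L ≤ N * (5 * N + 3) + 1 := by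
    refine (sz_le_length_mul L (5 * N + 2) ?_).trans ?_
    · rintro ⟨x, y⟩ hp
      have := h2 _ hp
      simp only at this
      have h6 := key y (by omega)
      rw [sz_pair]
      omega
    · exact Nat.add_le_add_right (Nat.mul_le_mul (h3.trans hk) le_rfl) 1
  have e3 : sz E ≤ 2 * N * (8 * N + 4) + 1 := by
    refine (sz_le_length_mul E (8 * N + 3) ?_).trans ?_
    · rintro ⟨x, y⟩ hp
      have := h4 _ hp
      simp only at this
      have h6 := key y (by omega)
      have h7 := key x (by omega)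
      rw [sz_pair]
      omega
    · exact Nat.add_le_add_right (Nat.mul_le_mul (h5.trans (by omega)) le_rfl) 1
  omega

theorem poly_run : Poly (fun cs : List Cm => run cs) := by
  refine Poly.foldl (l := fun cs : List Cm => cs) (s := fun _ => ((1, [], []) : Sta))
    (F := fun _ s c => stp s c) Poly.id (Poly.const _) ?_
    ((4 * (Polynomial.X + 1) + 1) + (Polynomial.X * (5 * Polynomial.X + 3) + 1) +
      (2 * Polynomial.X * (8 * Polynomial.X + 4) + 1) + 2) ?_
  · exact Poly.comp (g := fun x : Sta × Cm => stp x.1 x.2)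
      (f := fun p : List Cm × Sta × Cm => (p.2.1, p.2.2)) poly_stp (Poly.snd Poly.id)
  · intro cs k hk
    have h1 : Inv (sz cs) (cs.take k).length (run (cs.take k)) := by
      refine inv_run _ fun c hc => ?_
      have h1 := sz_le_of_mem (List.mem_of_mem_take hc)
      obtain ⟨a, o⟩ := c
      rw [sz_pair] at h1
      simp only
      omega
    have h2 : (cs.take k).length ≤ sz cs := by
      have := length_lt_sz cs
      rw [List.length_take]
      omega
    have h3 := h1.sz_le h2
    simpa [run] using h3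

/-- The matrix can be computed in polynomial time. -/
theorem PMAT : S_PMAT := by
  unfold S_PMAT
  have hr : UPoly (fun cs : List Cm => (run cs).1) := by
    have h : UPoly (fun cs : List Cm => cs.length + 1) :=
      UPoly.add (UPoly.length Poly.id) (UPoly.const 1)
    exact Poly.congr h fun cs => by simp only [run_fst]
  have hR : Poly (fun cs : List Cm => List.range (run cs).1) := UPoly.range hr
  unfold matOf
  refine Poly.map (l := fun cs : List Cm => List.range (run cs).1)
    (F := fun cs u => (List.range (run cs).1).map fun v => decide ((u, v) ∈ (run cs).2.2)) hR ?_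
  refine Poly.map (l := fun p : List Cm × ℕ => List.range (run p.1).1)
    (F := fun p v => decide ((p.2, v) ∈ (run p.1).2.2)) (hR.comp (Poly.fst Poly.id)) ?_
  have hE : Poly (fun p : (List Cm × ℕ) × ℕ => (run p.1.1).2.2) :=
    Poly.snd (Poly.snd (poly_run.comp (Poly.fst (Poly.fst Poly.id))))
  exact (Poly.decide_mem (f := fun p : (List Cm × ℕ) × ℕ => (p.1.2, p.2))
    (l := fun p => (run p.1.1).2.2)
    (Poly.pair (Poly.snd (Poly.fst Poly.id)) (Poly.snd Poly.id)) hE).congr
      fun a => decide_eq_decide.2 Iff.rfl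

end Pool.Agent.NPC.H791SC
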